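import Pool.Agent.K6.H96.MX.Gnr
import Pool.Agent.Y718.CL.Sep
import Pool.Agent.Y151.CL.Fnt
import Pool.Agent.Y165.CL.Ufd
import Pool.Agent.Y944.CL.Ex

/-!
# The points which are not exceptional contain the complement of a divisor
-/

set_option autoImplicit false
set_option linter.unusedVariables false
set_option linter.unusedSectionVars false

open Filter Topology Pool.Agent.Y720.MZ Pool.Agent.Y718.CL Pool.Agent.Y718.SF

namespace Pool.Agent.K6.H96.MX

section pts

/-- independent functions have a nonzero determinant at some points -/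
lemma det_points {ι S F : Type*} [Fintype ι] [DecidableEq ι] [Field F] (g : ι → S → F)
    (h : ∀ c : ι → F, (∀ s, ∑ b, c b * g b s = 0) → c = 0) :
    ∃ s : ι → S, (Matrix.of fun a b => g b (s a)).det ≠ 0 := by
  classical
  set R : Set (ι → F) := Set.range fun s b => g b s with hR
  have htop : Submodule.span F R = ⊤ := by
    by_contra hne
    obtain ⟨φ, hφ, hle⟩ := Submodule.exists_le_ker_of_lt_top _ (lt_top_iff_ne_top.2 hne)
    apply hφ
    have h1 : ∀ v : ι → F, φ v = ∑ b, φ (Pi.single b 1) * v b := by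
      intro v
      conv_lhs => rw [← Finset.univ_sum_single v]
      rw [map_sum]
      refine Finset.sum_congr rfl fun b _ => ?_
      have : (Pi.single b (v b) : ι → F) = v b • Pi.single b 1 := by
        rw [← Pi.single_smul, smul_eq_mul, mul_one]
      rw [this, map_smul, smul_eq_mul, mul_comm]
    have h2 := h (fun b => φ (Pi.single b 1)) fun s => by
      have h3 : φ (fun b => g b s) = 0 := hle (Submodule.subset_span ⟨s, rfl⟩)
      rw [h1] at h3
      exact h3
    refine LinearMap.ext fun v => ?_
    rw [h1, LinearMap.zero_apply]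
    refine Finset.sum_eq_zero fun b _ => ?_
    have h4 := congrFun h2 b
    simp only [Pi.zero_apply] at h4
    rw [h4, zero_mul]
  obtain ⟨f, hf1, -, hf3⟩ := Submodule.exists_fun_fin_finrank_span_eq F R
  have hc : Module.finrank F (Submodule.span F R) = Fintype.card ι := by
    rw [htop, finrank_top, Module.finrank_fintype_fun_eq_card]
  let e : ι ≃ Fin (Module.finrank F (Submodule.span F R)) := (Fintype.equivFin ι).trans
    (finCongr hc.symm)
  choose s hs using hf1
  refine ⟨fun a => s (e a), ?_⟩
  have h5 : LinearIndependent F (Matrix.of fun a b => g b (s (e a))).row := by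
    have h6 := hf3.comp e e.injective
    have h7 : (Matrix.of fun a b => g b (s (e a))).row = f ∘ e := by
      funext a
      exact hs (e a)
    rw [h7]
    exact h6
  rw [Matrix.linearIndependent_rows_iff_isUnit, Matrix.isUnit_iff_isUnit_det] at h5
  exact h5.ne_zero

end pts

section bad

variable {r : ℕ} {n : Fin r → ℕ} {K : Type} [Field K] [CharZero K]

/-- the cubic covariant of the restriction to a line in the `k`-th factor -/
noncomputable def gBP (f : MvPolynomial (Vr n) K) (k : Fin r) (e : Fin (n k + 1) → K) :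
    MvPolynomial (Vr n) K :=
  gk f (hat k e) 1 ^ 3 - 4 * gk f (hat k e) 0 * gk f (hat k e) 1 * gk f (hat k e) 2 +
    8 * gk f (hat k e) 0 ^ 2 * gk f (hat k e) 3

/-- the quartic covariant -/
noncomputable def gTP (f : MvPolynomial (Vr n) K) (k : Fin r) (e : Fin (n k + 1) → K) :
    MvPolynomial (Vr n) K :=
  (gk f (hat k e) 1 ^ 2 - 4 * gk f (hat k e) 0 * gk f (hat k e) 2) ^ 2 -
    64 * gk f (hat k e) 0 ^ 3 * gk f (hat k e) 4

lemma gk_ev {F : Type} [Field F] [CharZero F] (σ : K →+* F) (f : MvPolynomial (Vr n) K)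
    (k : Fin r) (e : Fin (n k + 1) → K) (x : Vr n → F) (j : ℕ) :
    MvPolynomial.eval x (MvPolynomial.map σ (gk f (hat k e) j)) =
      (lg (Gi (MvPolynomial.map σ f) x k) (fun j => x ⟨k, j⟩) fun l => σ (e l)).coeff j := by
  rw [gk_map, gk_eval, hat_map, rst_hat]

lemma gBP_ev {F : Type} [Field F] [CharZero F] (σ : K →+* F) (f : MvPolynomial (Vr n) K)
    (k : Fin r) (e : Fin (n k + 1) → K) (x : Vr n → F) :
    MvPolynomial.eval x (MvPolynomial.map σ (gBP f k e)) =
      gB (lg (Gi (MvPolynomial.map σ f) x k) (fun j => x ⟨k, j⟩) fun l => σ (e l)) := by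
  simp only [gBP, gB, map_add, map_sub, map_mul, map_pow, map_ofNat, gk_ev]

lemma gTP_ev {F : Type} [Field F] [CharZero F] (σ : K →+* F) (f : MvPolynomial (Vr n) K)
    (k : Fin r) (e : Fin (n k + 1) → K) (x : Vr n → F) :
    MvPolynomial.eval x (MvPolynomial.map σ (gTP f k e)) =
      Pool.Agent.Y718.SF.gT (lg (Gi (MvPolynomial.map σ f) x k) (fun j => x ⟨k, j⟩) fun l => σ (e l)) := by
  simp only [gTP, Pool.Agent.Y718.SF.gT, map_sub, map_mul, map_pow, map_ofNat, gk_ev]

/-- the functions -/
noncomputable def fb {m : ℕ} {F : Type} [Field F] (G : MvPolynomial (Fin (m + 1)) F) (z : Fin (m + 1) → F)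
    (b : Option (Fin (m + 1))) (U : Fin (m + 1) → F) : F :=
  b.elim (Pool.Agent.Y718.SF.gT (lg G z U)) fun l => U l * gB (lg G z U)

/-- the determinant -/
noncomputable def badP (f : MvPolynomial (Vr n) K) (k : Fin r)
    (e : Option (Fin (n k + 1)) → Fin (n k + 1) → K) : MvPolynomial (Vr n) K :=
  (Matrix.of fun a b : Option (Fin (n k + 1)) =>
    (b.elim (gTP f k (e a)) fun l => MvPolynomial.C (e a l) * gBP f k (e a) :
      MvPolynomial (Vr n) K)).det

lemma badP_ev {F : Type} [Field F] [CharZero F] (σ : K →+* F) (f : MvPolynomial (Vr n) K)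
    (k : Fin r) (e : Option (Fin (n k + 1)) → Fin (n k + 1) → K) (x : Vr n → F) :
    MvPolynomial.eval x (MvPolynomial.map σ (badP f k e)) =
      (Matrix.of fun a b => fb (Gi (MvPolynomial.map σ f) x k) (fun j => x ⟨k, j⟩) b
        fun l => σ (e a l)).det := by
  rw [badP, RingHom.map_det, RingHom.map_det]
  congr 1
  ext a b
  rcases b with _ | l
  · simp only [RingHom.mapMatrix_apply, Matrix.map_apply, Matrix.of_apply, fb, Option.elim_none]
    exact gTP_ev σ f k (e a) x
  · simp only [RingHom.mapMatrix_apply, Matrix.map_apply, Matrix.of_apply, fb, Option.elim_some,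
      map_mul, MvPolynomial.map_C, MvPolynomial.eval_C]
    rw [gBP_ev]

/-- the points where the determinant is not zero are not exceptional -/
lemma not_bad {F : Type} [Field F] [CharZero F] {m : ℕ} {G : MvPolynomial (Fin (m + 1)) F}
    {z : Fin (m + 1) → F} {e : Option (Fin (m + 1)) → Fin (m + 1) → F}
    (h : (Matrix.of fun a b => fb G z b (e a)).det ≠ 0) : ¬ Bad G z := by
  rintro (hb | ⟨l, hl⟩)
  · apply h
    refine Matrix.det_eq_zero_of_column_eq_zero (some 0) fun a => ?_
    simp only [Matrix.of_apply, fb, Option.elim_some]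
    rw [hb, mul_zero]
  · apply h
    rw [← Matrix.exists_mulVec_eq_zero_iff]
    refine ⟨fun b => b.elim (-1) l, fun h0 => ?_, ?_⟩
    · have := congrFun h0 none
      simp at this
    · funext a
      simp only [Matrix.mulVec, dotProduct, Matrix.of_apply, Pi.zero_apply, Fintype.sum_option,
        fb, Option.elim_none, Option.elim_some]
      rw [hl, Finset.sum_mul]
      have : ∑ i, l i * e a i * gB (lg G z (e a)) = ∑ i, e a i * gB (lg G z (e a)) * l i :=
        Finset.sum_congr rfl fun i _ => by ring
      rw [this]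
      ring

lemma PK_gB {F : Type} [Field F] [CharZero F] {m : ℕ} (G : MvPolynomial (Fin m) F)
    (z : Fin m → F) : PK fun U => gB (lg G z U) := ⟨gB (g0 G z), fun U => (Bp_eval G z U).symm⟩

lemma PK_gT {F : Type} [Field F] [CharZero F] {m : ℕ} (G : MvPolynomial (Fin m) F)
    (z : Fin m → F) : PK fun U => Pool.Agent.Y718.SF.gT (lg G z U) :=
  ⟨Pool.Agent.Y718.SF.gT (g0 G z), fun U => (Tp_eval G z U).symm⟩

/-- at a point which is not exceptional the functions are independent -/
lemma indep {F : Type} [Field F] [CharZero F] {m : ℕ} {G : MvPolynomial (Fin (m + 1)) F}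
    {z : Fin (m + 1) → F} (hb : ¬ Bad G z) (c : Option (Fin (m + 1)) → F)
    (h : ∀ U, ∑ b, c b * fb G z b U = 0) : c = 0 := by
  have : Infinite F := CharZero.infinite F
  rw [Bad, not_or] at hb
  obtain ⟨h1, h2⟩ := hb
  have h3 : ∀ U, c none * Pool.Agent.Y718.SF.gT (lg G z U) + (∑ l, c (some l) * U l) * gB (lg G z U) = 0 := by
    intro U
    have := h U
    rw [Fintype.sum_option] at this
    simp only [fb, Option.elim_none, Option.elim_some] at this
    rw [Finset.sum_mul, ← this]
    congr 1
    exact Finset.sum_congr rfl fun l _ => by ring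
  have hc0 : c none = 0 := by
    by_contra hne
    apply h2
    refine ⟨fun l => -(c (some l) / c none), fun U => ?_⟩
    have h4 := h3 U
    have h5 : ∑ i, -(c (some i) / c none) * U i = -(∑ l, c (some l) * U l) / c none := by
      rw [neg_div, Finset.sum_div, ← Finset.sum_neg_distrib]
      exact Finset.sum_congr rfl fun l _ => by ring
    rw [h5]
    field_simp
    linear_combination h4
  have hl : ∀ l, c (some l) = 0 := by
    by_contra hne
    push Not at hne
    obtain ⟨l, hl⟩ := hne
    have n1 : NZ fun U : Fin (m + 1) → F => ∑ l, c (some l) * U l := by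
      refine ⟨PK.sum _ fun l _ => (PK.const _).mul (PK.coord l), Pi.single l 1, ?_⟩
      change ∑ l', c (some l') * (Pi.single l 1 : Fin (m + 1) → F) l' ≠ 0
      rw [Finset.sum_eq_single l]
      · rw [Pi.single_eq_same, mul_one]; exact hl
      · intro j _ hj
        rw [Pi.single_eq_of_ne hj, mul_zero]
      · simp
    have n2 : NZ fun U : Fin (m + 1) → F => gB (lg G z U) := by
      push Not at h1
      exact ⟨PK_gB G z, h1⟩
    obtain ⟨U, hU⟩ := (n1.mul n2).2
    apply hU
    have := h3 U
    rw [hc0, zero_mul, zero_add] at this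
    exact this
  funext b
  rcases b with _ | l
  · exact hc0
  · exact hl l

lemma Gi_map {S : Type*} [Field S] [CharZero S] (φ : K →+* S) (f : MvPolynomial (Vr n) K)
    (x : Vr n → K) (k : Fin r) :
    Gi (MvPolynomial.map φ f) (fun a => φ (x a)) k = MvPolynomial.map φ (Gi f x k) := by
  induction f using MvPolynomial.induction_on with
  | C a => simp [Gi]
  | add p q hp hq =>
    simp only [Gi, map_add] at *
    rw [hp, hq]
  | mul_X p a hp =>
    simp only [Gi, map_mul, MvPolynomial.aeval_X, MvPolynomial.map_X] at *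
    rw [hp]
    congr 1
    obtain ⟨i, j⟩ := a
    by_cases h : i = k
    · subst h
      simp
    · simp [Function.update_of_ne h]

/-- avoid finitely many points of the projective space -/
lemma NZ_avoid {F : Type*} [Field F] [CharZero F] {m : ℕ} (hm : 1 ≤ m)
    {E : Set (Fin (m + 1) → F)} (hE : E.Finite) :
    ∃ g : (Fin (m + 1) → F) → F, NZ g ∧ ∀ y, g y ≠ 0 → ∀ e ∈ E, ∀ c : F, y ≠ c • e := by
  classical
  induction E, hE using Set.Finite.induction_on with
  | empty => exact ⟨fun _ => 1, ⟨PK.const 1, 0, one_ne_zero⟩, fun y _ e he => he.elim⟩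
  | @insert e E _ _ ih =>
    obtain ⟨g, hg, h⟩ := ih
    obtain ⟨q, hq, h'⟩ : ∃ q : (Fin (m + 1) → F) → F, NZ q ∧ ∀ y, q y ≠ 0 → ∀ c : F,
        y ≠ c • e := by
      by_cases he : e = 0
      · refine ⟨fun y => y 0, ⟨PK.coord 0, Pi.single 0 1, ?_⟩, fun y hy c hc => hy ?_⟩
        · change (Pi.single 0 1 : Fin (m + 1) → F) 0 ≠ 0
          rw [Pi.single_eq_same]
          exact one_ne_zero
        · change y 0 = 0
          rw [hc, he, smul_zero, Pi.zero_apply]
      · obtain ⟨a, ha⟩ : ∃ a, e a ≠ 0 := by
          by_contra hcon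
          push Not at hcon
          exact he (funext hcon)
        obtain ⟨b, hb⟩ : ∃ b : Fin (m + 1), b ≠ a := by
          by_contra hcon
          push Not at hcon
          have h0 := hcon ⟨0, by omega⟩
          have h1 := hcon ⟨1, by omega⟩
          rw [← h1] at h0
          simp [Fin.ext_iff] at h0
        refine ⟨fun y => e a * y b - e b * y a, ⟨((PK.const _).mul (PK.coord b)).sub
          ((PK.const _).mul (PK.coord a)), Pi.single b 1, ?_⟩, fun y hy c hc => hy ?_⟩
        · change e a * (Pi.single b 1 : Fin (m + 1) → F) b -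
            e b * (Pi.single b 1 : Fin (m + 1) → F) a ≠ 0
          rw [Pi.single_eq_same, Pi.single_eq_of_ne hb.symm, mul_one, mul_zero, sub_zero]
          exact ha
        · change e a * y b - e b * y a = 0
          rw [hc, Pi.smul_apply, Pi.smul_apply, smul_eq_mul, smul_eq_mul]
          ring
    refine ⟨fun y => q y * g y, hq.mul hg, fun y hy e' he' c => ?_⟩
    obtain ⟨h1, h2⟩ := mul_ne_zero_iff.1 hy
    rcases he' with rfl | he'
    · exact h' y h1 c
    · exact h y h2 e' he' c

/-- **Some determinant is not zero**, if `K` is a subfield of the complex numbers. -/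
theorem badP_ne (φ : K →+* ℂ) {f : MvPolynomial (Vr n) K} {d : Fin r → ℕ} (hf : MH d f)
    {k : Fin r} (hk : d k = 4) (hn : 2 ≤ n k) (hs : ∃ x : Vr n → K, Sm (Gi f x k)) :
    ∃ e : Option (Fin (n k + 1)) → Fin (n k + 1) → K, badP f k e ≠ 0 := by
  classical
  have h0 : S_EX0 := Pool.Agent.Y944.CL.ex0 Pool.Agent.Y151.CL.loc'
  have h1 : S_EX1 := Pool.Agent.Y944.CL.ex1 Pool.Agent.Y151.CL.loc'
  have hM : S_SMT := Pool.Agent.Y362.CL.smt
  obtain ⟨x, hx⟩ := hs
  have hKi : Infinite K := CharZero.infinite K
  set G := Gi f x k with hG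
  have hhom : G.IsHomogeneous 4 := by
    have := Gi_hom hf x k
    rwa [hk] at this
  have hsm := hM K (n k + 1) G hx φ
  obtain ⟨E, hE1, hE2⟩ := bad_set h0 h1 (RingHom.id ℂ) hn (hhom.map φ) (by
    rw [MvPolynomial.map_id]; exact hsm)
  obtain ⟨g, hg1, hg2⟩ := NZ_avoid (by omega : 1 ≤ n k) hE1
  have n2 : NZ fun y => MvPolynomial.eval y (MvPolynomial.map φ G) := by
    refine ⟨PK_eval _, ?_⟩
    by_contra hcon
    push Not at hcon
    have hG0 : MvPolynomial.map φ G = 0 := MvPolynomial.funext fun y => by rw [hcon y, map_zero]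
    have h2 := hsm (fun _ => 1) fun i => by rw [hG0, map_zero, map_zero]
    exact one_ne_zero (congrFun h2 0)
  obtain ⟨y, hy⟩ := (hg1.mul n2).2
  obtain ⟨hy1, hy2⟩ := mul_ne_zero_iff.1 hy
  have hnb : ¬ Bad (MvPolynomial.map φ G) y := by
    intro hb
    obtain ⟨e, he, c, hc⟩ := hE2 y hy2 hb
    exact hg2 y hy1 e he c hc
  -- the complex point
  set X : Vr n → ℂ := rpl (fun a => φ (x a)) k y with hX
  have hXk : (fun j => X ⟨k, j⟩) = y := by
    funext j
    simp [hX, rpl]
  have hGX : Gi (MvPolynomial.map φ f) X k = MvPolynomial.map φ G := by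
    refine MvPolynomial.funext fun U => ?_
    rw [← eval_rpl, hX, rpl_rpl, eval_rpl, hG, Gi_map]
  obtain ⟨U, hU⟩ := det_points (fun b U => fb (MvPolynomial.map φ G) y b U)
    (indep hnb)
  -- the determinant as a function of the directions
  have hP : ∀ a b : Option (Fin (n k + 1)), PK fun W : Option (Fin (n k + 1)) ×
      Fin (n k + 1) → ℂ => fb (MvPolynomial.map φ G) y b fun l => W (a, l) := by
    intro a b
    rcases b with _ | l
    · exact (PK_gT (MvPolynomial.map φ G) y).comp
        (φ := fun (l : Fin (n k + 1)) (W : Option (Fin (n k + 1)) × Fin (n k + 1) → ℂ) => W (a, l))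
        fun l => PK.coord (a, l)
    · exact (PK.coord (a, l)).mul ((PK_gB (MvPolynomial.map φ G) y).comp
        (φ := fun (l : Fin (n k + 1)) (W : Option (Fin (n k + 1)) × Fin (n k + 1) → ℂ) => W (a, l))
        fun l => PK.coord (a, l))
  choose P hP using hP
  set D : MvPolynomial (Option (Fin (n k + 1)) × Fin (n k + 1)) ℂ := (Matrix.of P).det with hD
  have hDe : ∀ W, MvPolynomial.eval W D = (Matrix.of fun a b => fb (MvPolynomial.map φ G) y b
      fun l => W (a, l)).det := by
    intro W
    rw [hD, RingHom.map_det]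
    congr 1
    ext a b
    exact (hP a b W).symm
  have hD0 : D ≠ 0 := by
    intro h
    apply hU
    have := hDe fun p => U p.1 p.2
    rw [h, map_zero] at this
    exact this.symm
  obtain ⟨e, he⟩ : ∃ e : Option (Fin (n k + 1)) × Fin (n k + 1) → K,
      MvPolynomial.eval (fun p => φ (e p)) D ≠ 0 := by
    by_contra hcon
    push Not at hcon
    apply hD0
    refine MvPolynomial.funext_set (fun _ => Set.range φ)
      (fun _ => Set.infinite_range_of_injective φ.injective) fun W hW => ?_
    rw [map_zero]
    choose e he using fun p => hW p (Set.mem_univ p)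
    have : W = fun p => φ (e p) := funext fun p => (he p).symm
    rw [this]
    exact hcon e
  refine ⟨fun a l => e (a, l), fun h => he ?_⟩
  have h2 := badP_ev φ f k (fun a l => e (a, l)) X
  rw [h, map_zero, map_zero, hGX, hXk] at h2
  rw [hDe]
  exact h2.symm

end bad

end Pool.Agent.K6.H96.MX
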