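import Pool.Agent.K6.H96.MX.Step

/-!
# The conditions hold outside a divisor
-/

set_option autoImplicit false
set_option linter.unusedVariables false
set_option linter.unusedSectionVars false

open Filter Topology Pool.Agent.Y720.MZ Pool.Agent.Y718.CL Pool.Agent.Y718.SF

namespace Pool.Agent.K6.H96.MX

section subst

variable {r : ℕ} {n : Fin r → ℕ} {K : Type*} [Field K] [CharZero K]

/-- insert the vector `e` for the variables of the `k`-th factor -/
noncomputable def rplP (k : Fin r) (e : Fin (n k + 1) → K) (g : MvPolynomial (Vr n) K) :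
    MvPolynomial (Vr n) K :=
  MvPolynomial.aeval (fun a : Vr n => Function.update (fun (k : Fin r) (j : Fin (n k + 1)) =>
    (MvPolynomial.X ⟨k, j⟩ : MvPolynomial (Vr n) K)) k (fun j => MvPolynomial.C (e j)) a.1 a.2) g

lemma eval_rplP {F : Type*} [Field F] [CharZero F] (σ : K →+* F) (x : Vr n → F) (k : Fin r)
    (e : Fin (n k + 1) → K) (g : MvPolynomial (Vr n) K) :
    MvPolynomial.eval x (MvPolynomial.map σ (rplP k e g)) =
      MvPolynomial.eval (rpl x k fun j => σ (e j)) (MvPolynomial.map σ g) := by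
  induction g using MvPolynomial.induction_on with
  | C a => simp [rplP]
  | add p q hp hq =>
    simp only [rplP, map_add] at *
    rw [hp, hq]
  | mul_X p a hp =>
    simp only [rplP, map_mul, MvPolynomial.aeval_X, MvPolynomial.map_X, MvPolynomial.eval_X] at *
    rw [hp]
    congr 1
    obtain ⟨i, j⟩ := a
    by_cases h : i = k
    · subst h
      simp [rpl]
    · simp [rpl, Function.update_of_ne h]

lemma eval_rplP' (x : Vr n → K) (k : Fin r) (e : Fin (n k + 1) → K) (g : MvPolynomial (Vr n) K) :
    MvPolynomial.eval x (rplP k e g) = MvPolynomial.eval (rpl x k e) g := by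
  have := eval_rplP (RingHom.id K) x k e g
  rwa [MvPolynomial.map_id, MvPolynomial.map_id] at this

lemma rpl_self (x : Vr n → K) (k : Fin r) : rpl x k (fun j => x ⟨k, j⟩) = x := by
  funext ⟨i, j⟩
  by_cases h : i = k
  · subst h
    simp [rpl]
  · simp [rpl, Function.update_of_ne h]

lemma rpl_rpl (x : Vr n → K) (k : Fin r) (u e : Fin (n k + 1) → K) :
    rpl (rpl x k u) k e = rpl x k e := by
  funext ⟨i, j⟩
  by_cases h : i = k
  · subst h
    simp [rpl]
  · simp [rpl, Function.update_of_ne h]

/-- the polynomial which is not zero at the points where not all derivatives are multiples -/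
noncomputable def ndP (f : MvPolynomial (Vr n) K) (k i : Fin r) (j : Fin (n i + 1))
    (e : Fin (n k + 1) → K) : MvPolynomial (Vr n) K :=
  f * rplP k e (MvPolynomial.pderiv ⟨i, j⟩ f) - MvPolynomial.pderiv ⟨i, j⟩ f * rplP k e f

lemma ind_of {F : Type*} [Field F] [CharZero F] (σ : K →+* F) {f : MvPolynomial (Vr n) K}
    {k i : Fin r} {j : Fin (n i + 1)} {e : Fin (n k + 1) → K} {x : Vr n → F}
    (h : MvPolynomial.eval x (MvPolynomial.map σ (ndP f k i j e)) ≠ 0) :
    Ind (MvPolynomial.map σ f) x k i := by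
  refine ⟨j, fun c hc => h ?_⟩
  have h1 := congrArg (MvPolynomial.eval fun j => x ⟨k, j⟩) hc
  rw [Gi_self, map_mul, MvPolynomial.eval_C, Gi_self] at h1
  have h2 := congrArg (MvPolynomial.eval fun j => σ (e j)) hc
  rw [map_mul, MvPolynomial.eval_C, ← eval_rpl, ← eval_rpl, MvPolynomial.pderiv_map,
    ← eval_rplP, ← eval_rplP] at h2
  rw [MvPolynomial.pderiv_map] at h1
  rw [ndP, map_sub, map_mul, map_mul, map_sub, map_mul, map_mul, h2, h1]
  ring

/-- **An irreducible form.** -/
lemma ndP_ne {f : MvPolynomial (Vr n) K} {d : Fin r → ℕ} (hf : MH d f) (hirr : Irreducible f)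
    {k i : Fin r} (hk : d k ≠ 0) (hi : d i ≠ 0) :
    ∃ (j : Fin (n i + 1)) (e : Fin (n k + 1) → K), ndP f k i j e ≠ 0 := by
  classical
  have : Infinite K := CharZero.infinite K
  by_contra hcon
  push Not at hcon
  have hf0 : f ≠ 0 := hirr.ne_zero
  -- a point outside the divisor
  obtain ⟨x, hx⟩ : ∃ x, MvPolynomial.eval x f ≠ 0 := by
    by_contra h
    push Not at h
    exact hf0 (MvPolynomial.funext fun x => by rw [h x, map_zero])
  -- `f` does not divide the form with inserted coordinates
  have h1 : ¬ f ∣ rplP k (fun j => x ⟨k, j⟩) f := by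
    rintro ⟨g, hg⟩
    have h2 := congrArg (MvPolynomial.eval (rpl x k 0)) hg
    rw [eval_rplP', rpl_rpl, rpl_self, map_mul] at h2
    have h3 : MvPolynomial.eval (rpl x k 0) f = 0 := by
      have h4 := hf.eval k 0 x
      rw [zero_pow hk, zero_mul] at h4
      rw [← h4]
      congr 1
      congr 1
      funext ⟨l, j⟩
      by_cases h : l = k
      · subst h
        simp [rpl]
      · simp [rpl, Function.update_of_ne h, h]
    rw [h3, zero_mul] at h2
    exact hx h2
  -- so it divides the derivatives
  have h2 : ∀ j : Fin (n i + 1), f ∣ MvPolynomial.pderiv ⟨i, j⟩ f := by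
    intro j
    have h3 := hcon j fun j => x ⟨k, j⟩
    rw [ndP, sub_eq_zero] at h3
    exact (hirr.prime.dvd_or_dvd ⟨_, h3.symm⟩).resolve_right h1
  -- so they vanish
  have h3 : ∀ j : Fin (n i + 1), MvPolynomial.pderiv ⟨i, j⟩ f = 0 := by
    intro j
    by_contra hne
    obtain ⟨g, hg⟩ := h2 j
    obtain ⟨z, hz⟩ : ∃ z, MvPolynomial.eval z (MvPolynomial.pderiv ⟨i, j⟩ f) ≠ 0 := by
      by_contra h
      push Not at h
      exact hne (MvPolynomial.funext fun x => by rw [h x, map_zero])
    have a1 : (Gi (MvPolynomial.pderiv ⟨i, j⟩ f) z i).IsHomogeneous (d i - 1) := by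
      have := Gi_hom (MH_pderiv hf i j) z i
      rwa [Function.update_self] at this
    have a0 : (Gi f z i).IsHomogeneous (d i) := Gi_hom hf z i
    have a2 : Gi (MvPolynomial.pderiv ⟨i, j⟩ f) z i = Gi f z i * Gi g z i := by
      rw [hg, Gi, Gi, Gi, map_mul]
    have a3 : Gi (MvPolynomial.pderiv ⟨i, j⟩ f) z i ≠ 0 := by
      intro h
      apply hz
      rw [← Gi_self _ z i, h, map_zero]
    have a4 : Gi f z i ≠ 0 ∧ Gi g z i ≠ 0 := by
      rw [a2] at a3
      exact ⟨left_ne_zero_of_mul a3, right_ne_zero_of_mul a3⟩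
    have a5 := MvPolynomial.totalDegree_mul_of_isDomain a4.1 a4.2
    rw [← a2, a1.totalDegree a3, a0.totalDegree a4.1] at a5
    omega
  -- the form of Euler
  have h4 : (d i : K) * MvPolynomial.eval x f = 0 := by
    have e0 : Polynomial.derivative (rst f x (hat i fun j => x ⟨i, j⟩)) = 0 := by
      rw [rst_deriv]
      have : Pool.Agent.Y720.MZ.dd f (hat i fun j => x ⟨i, j⟩) = 0 := by
        rw [Pool.Agent.Y720.MZ.dd]
        refine Finset.sum_eq_zero fun a _ => ?_
        obtain ⟨l, j⟩ := a
        by_cases h : l = i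
        · subst h
          rw [h3, mul_zero]
        · rw [hat_ne h, MvPolynomial.C_0, zero_mul]
      rw [this, rst, map_zero]
    have e1 : ∀ c : K, (rst f x (hat i fun j => x ⟨i, j⟩)).eval (c - 1) =
        c ^ (d i) * MvPolynomial.eval x f := by
      intro c
      rw [rst_eval, ← hf.eval i c x]
      congr 1
      congr 1
      funext ⟨l, j⟩
      by_cases h : l = i
      · subst h
        simp [hat_same]
        ring
      · simp [hat_ne h, h]
    obtain ⟨c, hc⟩ : ∃ c, rst f x (hat i fun j => x ⟨i, j⟩) = Polynomial.C c :=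
      ⟨_, Polynomial.eq_C_of_derivative_eq_zero e0⟩
    have e2 := e1 0
    have e3 := e1 1
    rw [hc, Polynomial.eval_C] at e2 e3
    rw [e2, zero_pow hi, zero_mul, one_pow, one_mul] at e3
    exact absurd e3.symm hx
  exact mul_ne_zero (Nat.cast_ne_zero.2 hi) hx h4

end subst

end Pool.Agent.K6.H96.MX
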