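import Pool.Agent.K6.H96.MX.Srv
import Pool.Agent.Y447.CL.Small
import Pool.Agent.Y362.CL.Smt

/-!
# Forms restricted to lines: separability and divisibility
-/

set_option autoImplicit false
set_option linter.unusedVariables false
set_option linter.unusedSectionVars false

open Filter Topology Pool.Agent.Y720.MZ Pool.Agent.Y718.CL Pool.Agent.Y718.SF

namespace Pool.Agent.K6.H96.MX

section forms

variable {F : Type*} [Field F] [CharZero F] {β : Type*} [Fintype β]

lemma hom_smul' {D : ℕ} {G : MvPolynomial β F} (hG : G.IsHomogeneous D) (x : F) (Z : β → F) :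
    MvPolynomial.eval (x • Z) G = x ^ D * MvPolynomial.eval Z G := by
  classical
  rw [MvPolynomial.eval_eq, MvPolynomial.eval_eq, Finset.mul_sum]
  refine Finset.sum_congr rfl fun d hd => ?_
  have h1 : ∑ i ∈ d.support, d i = D := by
    have := hG (MvPolynomial.mem_support_iff.mp hd)
    simpa [Finsupp.weight_apply, Finsupp.sum] using this
  have h2 : ∏ i ∈ d.support, (x • Z) i ^ d i = x ^ D * ∏ i ∈ d.support, Z i ^ d i := by
    rw [← h1, ← Finset.prod_pow_eq_pow_sum, ← Finset.prod_mul_distrib]
    refine Finset.prod_congr rfl fun i _ => ?_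
    rw [Pi.smul_apply, smul_eq_mul, mul_pow]
  rw [h2]
  ring

lemma lg_deg' {D : ℕ} {G : MvPolynomial β F} (hG : G.IsHomogeneous D) (z e : β → F) :
    (lg G z e).natDegree ≤ D :=
  (lg_natDegree G z e).trans hG.totalDegree_le

lemma lg_top {D : ℕ} {G : MvPolynomial β F} (hG : G.IsHomogeneous D) (z e : β → F) :
    (lg G z e).coeff D = MvPolynomial.eval e G := by
  have : Infinite F := CharZero.infinite F
  have h1 : lg G z e = Polynomial.reflect D (lg G e z) := by
    refine Polynomial.eq_of_infinite_eval_eq _ _ ?_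
    refine (Set.finite_singleton (0 : F)).infinite_compl.mono fun t ht => ?_
    have ht0 : t ≠ 0 := ht
    change (lg G z e).eval t = (Polynomial.reflect D (lg G e z)).eval t
    let : Invertible t⁻¹ := invertibleOfNonzero (inv_ne_zero ht0)
    have h2 := Polynomial.eval₂_reflect_mul_pow (RingHom.id F) t⁻¹ D (lg G e z) (lg_deg' hG e z)
    have h3 : ⅟(t⁻¹) = t := by rw [invOf_eq_inv, inv_inv]
    rw [h3] at h2
    change (Polynomial.reflect D (lg G e z)).eval t * t⁻¹ ^ D = (lg G e z).eval t⁻¹ at h2
    rw [lg_eval] at h2 ⊢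
    have e1 : z + t • e = t • (e + t⁻¹ • z) := by
      rw [smul_add, smul_smul, mul_inv_cancel₀ ht0, one_smul, add_comm]
    rw [e1, hom_smul' hG, ← h2, inv_pow]
    field_simp
  rw [h1, Polynomial.coeff_reflect, Polynomial.revAt_le le_rfl, Nat.sub_self,
    Polynomial.coeff_zero_eq_eval_zero, lg_eval, zero_smul, add_zero]

/-- divisibility on a line -/
lemma not_dvd {D : ℕ} {G₀ G₁ : MvPolynomial β F} (h0 : G₀.IsHomogeneous D)
    (h1 : G₁.IsHomogeneous D) {z e : β → F} (he : MvPolynomial.eval e G₀ ≠ 0)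
    (hne : MvPolynomial.eval z G₀ * MvPolynomial.eval (z + e) G₁ -
      MvPolynomial.eval z G₁ * MvPolynomial.eval (z + e) G₀ ≠ 0) : ¬ lg G₀ z e ∣ lg G₁ z e := by
  rintro ⟨h, hh⟩
  have hD : (lg G₀ z e).natDegree = D :=
    le_antisymm (lg_deg' h0 z e) (Polynomial.le_natDegree_of_ne_zero (by rw [lg_top h0]; exact he))
  have h00 : lg G₀ z e ≠ 0 := by
    intro hz
    apply he
    rw [← lg_top h0 z e, hz, Polynomial.coeff_zero]
  have e0 : (lg G₁ z e).eval 0 = MvPolynomial.eval z G₁ := by
    rw [lg_eval, zero_smul, add_zero]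
  have e1 : (lg G₁ z e).eval 1 = MvPolynomial.eval (z + e) G₁ := by
    rw [lg_eval, one_smul]
  have e0' : (lg G₀ z e).eval 0 = MvPolynomial.eval z G₀ := by
    rw [lg_eval, zero_smul, add_zero]
  have e1' : (lg G₀ z e).eval 1 = MvPolynomial.eval (z + e) G₀ := by
    rw [lg_eval, one_smul]
  apply hne
  by_cases hz : h = 0
  · rw [hz, mul_zero] at hh
    rw [hh, Polynomial.eval_zero] at e0 e1
    rw [← e0, ← e1]
    ring
  · have h2 : (lg G₁ z e).natDegree = (lg G₀ z e).natDegree + h.natDegree := by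
      rw [hh, Polynomial.natDegree_mul h00 hz]
    have h3 : h.natDegree = 0 := by
      have := lg_deg' h1 z e
      omega
    obtain ⟨c, rfl⟩ : ∃ c, h = Polynomial.C c := ⟨_, Polynomial.eq_C_of_natDegree_eq_zero h3⟩
    rw [hh, Polynomial.eval_mul, Polynomial.eval_C, e0'] at e0
    rw [hh, Polynomial.eval_mul, Polynomial.eval_C, e1'] at e1
    rw [← e0, ← e1]
    ring

lemma PK_shift (G : MvPolynomial β F) (z : β → F) :
    PK fun e : β → F => MvPolynomial.eval (z + e) G :=
  (PK_eval G).comp (φ := fun (k : β) (e : β → F) => (z + e) k) fun k =>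
    (PK.const (z k)).add (PK.coord k)

/-- divisibility on most lines -/
lemma NZ_nd {G₀ G₁ : MvPolynomial β F} {z : β → F} (hz : MvPolynomial.eval z G₀ ≠ 0)
    (hne : ∀ c : F, G₁ ≠ MvPolynomial.C c * G₀) :
    NZ fun e : β → F => MvPolynomial.eval e G₀ * (MvPolynomial.eval z G₀ *
      MvPolynomial.eval (z + e) G₁ - MvPolynomial.eval z G₁ * MvPolynomial.eval (z + e) G₀) := by
  refine NZ.mul ⟨PK_eval G₀, z, hz⟩ ⟨?_, ?_⟩
  · exact ((PK.const _).mul (PK_shift G₁ z)).sub ((PK.const _).mul (PK_shift G₀ z))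
  · by_contra hcon
    push Not at hcon
    have : Infinite F := CharZero.infinite F
    apply hne (MvPolynomial.eval z G₁ / MvPolynomial.eval z G₀)
    refine MvPolynomial.funext fun y => ?_
    have h1 := hcon (y - z)
    rw [add_sub_cancel] at h1
    rw [map_mul, MvPolynomial.eval_C]
    field_simp
    linear_combination h1

/-- simple roots of a quadratic polynomial -/
lemma sep2 {q : Polynomial F} (hq : q.natDegree ≤ 2)
    (hD : q.coeff 1 ^ 2 - 4 * q.coeff 0 * q.coeff 2 ≠ 0) {M : Type*} [Field M] [Algebra F M]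
    {s : M} (h0 : Polynomial.aeval s q = 0) :
    Polynomial.aeval s (Polynomial.derivative q) ≠ 0 := by
  intro h1
  have hq' : q = Polynomial.C (q.coeff 0) + Polynomial.C (q.coeff 1) * Polynomial.X +
      Polynomial.C (q.coeff 2) * Polynomial.X ^ 2 := by
    conv_lhs => rw [Polynomial.as_sum_range_C_mul_X_pow' q (by omega : q.natDegree < 3)]
    simp [Finset.sum_range_succ]
  set a := q.coeff 0
  set b := q.coeff 1
  set c := q.coeff 2
  rw [hq'] at h0 h1
  simp only [Polynomial.derivative_add, Polynomial.derivative_mul, Polynomial.derivative_C,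
    Polynomial.derivative_X, Polynomial.derivative_X_pow, zero_mul, zero_add, mul_one, map_add,
    map_mul, map_pow, Polynomial.aeval_C, Polynomial.aeval_X, Nat.cast_ofNat, map_ofNat,
    Nat.add_one_sub_one, pow_one] at h0 h1
  apply hD
  apply (algebraMap F M).injective
  rw [map_sub, map_pow, map_mul, map_mul, map_ofNat, map_zero]
  linear_combination (algebraMap F M b + 2 * algebraMap F M c * s) * h1 -
    4 * algebraMap F M c * h0

/-- the hypersurface `G = 0` is smooth -/
def Sm {F : Type*} [Field F] {m : ℕ} (G : MvPolynomial (Fin m) F) : Prop :=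
  ∀ y : Fin m → AlgebraicClosure F, (∀ j, MvPolynomial.aeval y (MvPolynomial.pderiv j G) = 0) →
    y = 0

/-- quadratic forms -/
lemma NZ_quad {m : ℕ} (hm : 1 ≤ m) {G : MvPolynomial (Fin (m + 1)) F} (hG : G.IsHomogeneous 2)
    (hs : Sm G) {z : Fin (m + 1) → F} (hz : MvPolynomial.eval z G ≠ 0) :
    NZ fun e : Fin (m + 1) → F => (lg G z e).coeff 1 ^ 2 -
      4 * (lg G z e).coeff 0 * (lg G z e).coeff 2 := by
  have : Infinite F := CharZero.infinite F
  refine ⟨((PKu_coeff G z 1).pow 2).sub (((PK.const 4).mul (PKu_coeff G z 0)).mul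
    (PKu_coeff G z 2)), ?_⟩
  by_contra hcon
  push Not at hcon
  set g : Fin (m + 1) → F := fun j => MvPolynomial.eval z (MvPolynomial.pderiv j G) with hg
  set c := MvPolynomial.eval z G with hc
  set Lf : MvPolynomial (Fin (m + 1)) F := ∑ j, MvPolynomial.C (g j) * MvPolynomial.X j with hL
  have h1 : ∀ e, (lg G z e).coeff 1 = MvPolynomial.eval e Lf := by
    intro e
    have k1 : (Polynomial.derivative (rst G z e)).coeff 0 = (rst G z e).coeff 1 := by
      rw [Polynomial.coeff_derivative]; simp
    have k2 : (lg G z e).coeff 1 = MvPolynomial.eval z (Pool.Agent.Y720.MZ.dd G e) := by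
      change (rst G z e).coeff 1 = _
      rw [← k1, rst_deriv, Polynomial.coeff_zero_eq_eval_zero, rst_eval, zero_smul, add_zero]
    rw [k2, Pool.Agent.Y720.MZ.dd, hL, map_sum, map_sum]
    refine Finset.sum_congr rfl fun j _ => ?_
    rw [map_mul, map_mul, MvPolynomial.eval_C, MvPolynomial.eval_C, MvPolynomial.eval_X]
    rw [hg]
    ring
  have h0 : ∀ e, (lg G z e).coeff 0 = c := by
    intro e
    rw [Polynomial.coeff_zero_eq_eval_zero, lg_eval, zero_smul, add_zero]
  have h2 : MvPolynomial.C (4 * c) * G = Lf ^ 2 := by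
    refine MvPolynomial.funext fun e => ?_
    have k := hcon e
    rw [h1, h0, lg_top hG] at k
    rw [map_mul, MvPolynomial.eval_C, map_pow]
    linear_combination -k
  have hLp : ∀ j, MvPolynomial.pderiv j Lf = MvPolynomial.C (g j) := by
    intro j
    rw [hL, map_sum]
    rw [Finset.sum_eq_single j]
    · rw [MvPolynomial.pderiv_C_mul, MvPolynomial.pderiv_X_self, mul_one]
    · intro l _ hl
      rw [MvPolynomial.pderiv_C_mul, MvPolynomial.pderiv_X_of_ne hl, mul_zero]
    · simp
  have h3 : ∀ j, MvPolynomial.C (4 * c) * MvPolynomial.pderiv j G =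
      MvPolynomial.C (2 * g j) * Lf := by
    intro j
    have k := congrArg (MvPolynomial.pderiv j) h2
    rw [pow_two, Derivation.leibniz, Derivation.leibniz, MvPolynomial.pderiv_C, hLp] at k
    simp only [smul_eq_mul, mul_zero, add_zero] at k
    rw [k, show MvPolynomial.C (2 * g j) = 2 * (MvPolynomial.C (g j) :
      MvPolynomial (Fin (m + 1)) F) by rw [map_mul, map_ofNat]]
    ring
  set φ := algebraMap F (AlgebraicClosure F) with hφ
  obtain ⟨y, hy0, hy⟩ : ∃ y : Fin (m + 1) → AlgebraicClosure F, y ≠ 0 ∧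
      ∑ j, φ (g j) * y j = 0 := by
    let i0 : Fin (m + 1) := ⟨0, by omega⟩
    let i1 : Fin (m + 1) := ⟨1, by omega⟩
    have hne : i0 ≠ i1 := by simp [i0, i1, Fin.ext_iff]
    by_cases hg0 : g i0 = 0
    · refine ⟨Pi.single i0 1, fun h => ?_, ?_⟩
      · have := congrFun h i0
        rw [Pi.single_eq_same, Pi.zero_apply] at this
        exact one_ne_zero this
      · rw [Finset.sum_eq_single i0]
        · rw [hg0, map_zero, zero_mul]
        · intro j _ hj
          rw [Pi.single_eq_of_ne hj, mul_zero]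
        · simp
    · refine ⟨Pi.single i0 (φ (g i1)) + Pi.single i1 (-φ (g i0)), fun h => ?_, ?_⟩
      · have := congrFun h i1
        rw [Pi.add_apply, Pi.single_eq_of_ne hne.symm, Pi.single_eq_same, Pi.zero_apply,
          zero_add, neg_eq_zero] at this
        exact hg0 ((map_eq_zero φ).1 this)
      · simp only [Pi.add_apply, mul_add, Finset.sum_add_distrib]
        rw [Finset.sum_eq_single i0, Finset.sum_eq_single i1]
        · rw [Pi.single_eq_same, Pi.single_eq_same]
          ring
        · intro j _ hj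
          rw [Pi.single_eq_of_ne hj, mul_zero]
        · simp
        · intro j _ hj
          rw [Pi.single_eq_of_ne hj, mul_zero]
        · simp
  refine hy0 (hs y fun j => ?_)
  have k := congrArg (MvPolynomial.aeval y) (h3 j)
  rw [map_mul (MvPolynomial.aeval y), map_mul (MvPolynomial.aeval y), MvPolynomial.aeval_C,
    MvPolynomial.aeval_C] at k
  have k2 : MvPolynomial.aeval y Lf = 0 := by
    rw [hL, map_sum, ← hy]
    refine Finset.sum_congr rfl fun j _ => ?_
    rw [map_mul, MvPolynomial.aeval_C, MvPolynomial.aeval_X]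
  rw [k2, mul_zero] at k
  refine (mul_eq_zero.1 k).resolve_left ?_
  exact (map_ne_zero _).2 (mul_ne_zero (by norm_num) hz)

end forms

end Pool.Agent.K6.H96.MX
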