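import Pool.Agent.K6.H96.MX.Det

/-!
# The divisor
-/

set_option autoImplicit false
set_option linter.unusedVariables false
set_option linter.unusedSectionVars false

open Filter Topology Pool.Agent.Y720.MZ Pool.Agent.Y718.CL Pool.Agent.Y718.SF

namespace Pool.Agent.K6.H96.MX

/-- a direction of infinite order -/
lemma loc_io' {p : ℕ} [Fact p.Prime] {n : ℕ} {f : MvPolynomial (Fin (n + 1)) ℚ_[p]}
    {x : Fin (n + 1) → ℚ_[p]} {y : ℚ_[p]} (hP : onX f x y) (hy : y ≠ 0) (hb : ¬ Bad f x)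
    (hT : ∃ e, Tq f e x ≠ 0) : ∃ e, IOt (th f e x y) := by
  rw [Bad, not_or] at hb
  obtain ⟨h1, h2⟩ := hb
  refine exists_io Pool.Agent.Y165.CL.ufd Pool.Agent.Y447.CL.bai hP hy (gB (g0 f x))
    (Pool.Agent.Y718.SF.gT (g0 f x)) (Bp_eval f x) (Tp_eval f x) ?_ ?_ hT
  · intro h0
    apply h1
    intro U
    rw [← Bp_eval, h0, map_zero]
  · intro hd
    apply h2
    obtain ⟨l, hl⟩ := Pool.Agent.Y447.CL.lin ℚ_[p] (Fin (n + 1)) (gB (g0 f x))
      (Pool.Agent.Y718.SF.gT (g0 f x))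
      (hom_of_scale fun U c => by rw [Bp_eval, Bp_eval, gB_smul])
      (hom_of_scale fun U c => by rw [Tp_eval, Tp_eval, Pool.Agent.Y718.SF.gT_smul]) hd
    exact ⟨l, fun U => by rw [← Tp_eval, ← Bp_eval]; exact hl U⟩

section alg

variable {r : ℕ} {n : Fin r → ℕ}

lemma NZs_two' {F : Type*} [Field F] [CharZero F] {f : MvPolynomial (Vr n) F} {d : Fin r → ℕ}
    (hf : MH d f) {x : Vr n → F} {k : Fin r} (hk : d k = 2)
    (h : ∃ e : Fin (n k + 1) → F, (rst f x (hat k e)).coeff 1 ^ 2 -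
      4 * (rst f x (hat k e)).coeff 0 * (rst f x (hat k e)).coeff 2 ≠ 0) : NZs f x k := by
  refine ⟨fun e => (rst f x (hat k e)).coeff 1 ^ 2 -
      4 * (rst f x (hat k e)).coeff 0 * (rst f x (hat k e)).coeff 2, ⟨?_, h⟩, fun e he s hs => ?_⟩
  · have hc : ∀ m, PK fun e : Fin (n k + 1) → F => (rst f x (hat k e)).coeff m := fun m =>
      (PKu_coeff f x m).comp (φ := fun (a : Vr n) (u : Fin (n k + 1) → F) =>
        hat k u a) fun a => PK_hat k a
    exact ((hc 1).pow 2).sub (((PK.const 4).mul (hc 0)).mul (hc 2))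
  · refine sep2 ?_ he hs
    have := deg_hat hf x k e
    rwa [hk] at this

/-- the conditions at a place -/
structure Good {F : Type} [Field F] [CharZero F] (g : MvPolynomial (Vr n) F) (d : Fin r → ℕ)
    (k : Fin r) (x : Vr n → F) : Prop where
  /-- the lines in the `k`-th factor -/
  sep : NZs g x k
  /-- the point is not exceptional -/
  bad : d k = 4 → ¬ Bad (Gi g x k) (fun j => x ⟨k, j⟩) ∧
    ∃ e : Fin (n k + 1) → F, Tq g (hat k e) x ≠ 0
  /-- the derivatives -/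
  ind : ∀ i, i ≠ k → d i = 4 → Ind g x k i ∧ ∃ e : Fin (n i + 1) → F, Tq g (hat i e) x ≠ 0

variable {K : Type} [Field K] [CharZero K]

/-- a rational point of the base, where the form is smooth and `f` is not zero -/
lemma exists_x {f : MvPolynomial (Vr n) K} {i : Fin r} (hn : 1 ≤ n i)
    (hs : ∃ x : Vr n → K, Sm (Gi f x i)) :
    ∃ x : Vr n → K, Sm (Gi f x i) ∧ MvPolynomial.eval x f ≠ 0 := by
  have : Infinite K := CharZero.infinite K
  obtain ⟨x, hx⟩ := hs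
  obtain ⟨u, hu⟩ : ∃ u, MvPolynomial.eval u (Gi f x i) ≠ 0 := by
    by_contra hcon
    push Not at hcon
    have h0 : Gi f x i = 0 := MvPolynomial.funext fun y => by rw [hcon y, map_zero]
    have h1 := hx (fun _ => 1) fun j => by rw [h0, map_zero, map_zero]
    exact one_ne_zero (congrFun h1 0)
  refine ⟨rpl x i u, ?_, by rw [eval_rpl]; exact hu⟩
  have : Gi f (rpl x i u) i = Gi f x i := by
    refine MvPolynomial.funext fun y => ?_
    rw [← eval_rpl, rpl_rpl, eval_rpl]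
  rw [this]
  exact hx

lemma exists_TqP (φ : K →+* ℂ) {f : MvPolynomial (Vr n) K} {d : Fin r → ℕ} (hf : MH d f)
    {i : Fin r} (hi : d i = 4) (hn : 1 ≤ n i) (hs : ∃ x : Vr n → K, Sm (Gi f x i)) :
    ∃ e : Fin (n i + 1) → K, TqP f (hat i e) ≠ 0 := by
  obtain ⟨x, hx, hx0⟩ := exists_x hn hs
  have h0 : (Gi f x i).IsHomogeneous 4 := by
    have := Gi_hom hf x i
    rwa [hi] at this
  obtain ⟨e, he⟩ := exists_Tq Pool.Agent.Y718.CL.Sep.sep φ hn h0
    (Pool.Agent.Y362.CL.smt K (n i + 1) _ hx φ) (x := fun j => x ⟨i, j⟩)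
    (by rw [Gi_self]; exact hx0)
  refine ⟨e, fun h => he ?_⟩
  rw [← Tq_hat, ← TqP_eval, h, map_zero]

lemma TqP_pt {F : Type} [Field F] [CharZero F] (σ : K →+* F) {f : MvPolynomial (Vr n) K}
    {i : Fin r} {e : Fin (n i + 1) → K} {x : Vr n → F}
    (h : MvPolynomial.eval x (MvPolynomial.map σ (TqP f (hat i e))) ≠ 0) :
    ∃ e : Fin (n i + 1) → F, Tq (MvPolynomial.map σ f) (hat i e) x ≠ 0 := by
  refine ⟨fun j => σ (e j), ?_⟩
  rw [TqP_map, TqP_eval, hat_map] at h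
  exact h

/-- **The divisor.** -/
theorem exists_N (φ : K →+* ℂ) {f : MvPolynomial (Vr n) K} {d : Fin r → ℕ} (hf : MH d f)
    (hirr : Irreducible f) (hn : ∀ i, 1 ≤ n i) (hd : ∀ i, d i = 2 ∨ d i = 4)
    (hs : ∀ i, ∃ x : Vr n → K, Sm (Gi f x i)) {k : Fin r} (hk : d k = 2 ∨ 2 ≤ n k) :
    ∃ N : MvPolynomial (Vr n) K, N ≠ 0 ∧ ∀ (F : Type) [Field F] [CharZero F] (σ : K →+* F)
      (x : Vr n → F), MvPolynomial.eval x (MvPolynomial.map σ N) ≠ 0 →
        Good (MvPolynomial.map σ f) d k x := by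
  classical
  have hinf : Infinite K := CharZero.infinite K
  -- the `k`-th factor
  obtain ⟨N₁, hN₁, h₁⟩ : ∃ N : MvPolynomial (Vr n) K, N ≠ 0 ∧ ∀ (F : Type) [Field F] [CharZero F]
      (σ : K →+* F) (x : Vr n → F), MvPolynomial.eval x (MvPolynomial.map σ N) ≠ 0 →
        NZs (MvPolynomial.map σ f) x k ∧ (d k = 4 →
          ¬ Bad (Gi (MvPolynomial.map σ f) x k) (fun j => x ⟨k, j⟩) ∧
          ∃ e : Fin (n k + 1) → F, Tq (MvPolynomial.map σ f) (hat k e) x ≠ 0) := by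
    rcases hd k with h2 | h4
    · obtain ⟨x, hx, hx0⟩ := exists_x (hn k) (hs k)
      have h0 : (Gi f x k).IsHomogeneous 2 := by
        have := Gi_hom hf x k
        rwa [h2] at this
      obtain ⟨e, he⟩ := (NZ_quad (hn k) h0 hx (z := fun j => x ⟨k, j⟩)
        (by rw [Gi_self]; exact hx0)).2
      refine ⟨gk f (hat k e) 1 ^ 2 - 4 * gk f (hat k e) 0 * gk f (hat k e) 2, fun h => he ?_,
        fun F _ _ σ z hz => ⟨NZs_two' (hf.map σ) h2 ⟨fun j => σ (e j), ?_⟩, fun h => by omega⟩⟩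
      · have h5 := congrArg (MvPolynomial.eval x) h
        simp only [map_sub, map_mul, map_pow, map_ofNat, map_zero, gk_eval, rst_hat] at h5
        exact h5
      · simp only [map_sub, map_mul, map_pow, map_ofNat, gk_map, gk_eval, hat_map] at hz
        exact hz
    · have hnk : 2 ≤ n k := hk.resolve_left (by omega)
      obtain ⟨e, he⟩ := exists_TqP φ hf h4 (hn k) (hs k)
      obtain ⟨e', he'⟩ := badP_ne φ hf h4 hnk (hs k)
      refine ⟨TqP f (hat k e) * badP f k e', mul_ne_zero he he', fun F _ _ σ z hz => ?_⟩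
      rw [map_mul, map_mul] at hz
      obtain ⟨hz1, hz2⟩ := mul_ne_zero_iff.1 hz
      have hT := TqP_pt σ hz1
      refine ⟨NZs_four (hf.map σ) h4 hT, fun _ => ⟨?_, hT⟩⟩
      rw [badP_ev] at hz2
      exact not_bad hz2
  -- the other factors
  have h2 : ∀ i : Fin r, ∃ N : MvPolynomial (Vr n) K, N ≠ 0 ∧ ∀ (F : Type) [Field F] [CharZero F]
      (σ : K →+* F) (x : Vr n → F), MvPolynomial.eval x (MvPolynomial.map σ N) ≠ 0 →
        i ≠ k → d i = 4 → Ind (MvPolynomial.map σ f) x k i ∧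
          ∃ e : Fin (n i + 1) → F, Tq (MvPolynomial.map σ f) (hat i e) x ≠ 0 := by
    intro i
    by_cases hi : i ≠ k ∧ d i = 4
    · obtain ⟨j, e, he⟩ := ndP_ne hf hirr (k := k) (i := i)
        (by rcases hd k with h | h <;> omega) (by rw [hi.2]; norm_num)
      obtain ⟨e', he'⟩ := exists_TqP φ hf hi.2 (hn i) (hs i)
      refine ⟨ndP f k i j e * TqP f (hat i e'), mul_ne_zero he he', fun F _ _ σ z hz _ _ => ?_⟩
      rw [map_mul, map_mul] at hz
      obtain ⟨hz1, hz2⟩ := mul_ne_zero_iff.1 hz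
      exact ⟨ind_of σ hz1, TqP_pt σ hz2⟩
    · exact ⟨1, one_ne_zero, fun F _ _ σ z hz a b => absurd ⟨a, b⟩ hi⟩
  choose N₂ hN₂ h₂ using h2
  refine ⟨N₁ * ∏ i, N₂ i, mul_ne_zero hN₁ (Finset.prod_ne_zero_iff.2 fun i _ => hN₂ i),
    fun F _ _ σ z hz => ?_⟩
  rw [map_mul, map_mul, map_prod, map_prod] at hz
  obtain ⟨hz1, hz2⟩ := mul_ne_zero_iff.1 hz
  rw [Finset.prod_ne_zero_iff] at hz2
  obtain ⟨k1, k2⟩ := h₁ F σ z hz1
  exact ⟨k1, k2, fun i hi h4 => h₂ i F σ z (hz2 i (Finset.mem_univ i)) hi h4⟩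

lemma tq_gi {F : Type} [Field F] [CharZero F] {g : MvPolynomial (Vr n) F} {k : Fin r}
    {x : Vr n → F} (h : ∃ e : Fin (n k + 1) → F, Tq g (hat k e) x ≠ 0) :
    ∃ e : Fin (n k + 1) → F, Tq (Gi g x k) e (fun j => x ⟨k, j⟩) ≠ 0 := by
  obtain ⟨e, he⟩ := h
  exact ⟨e, by rw [← Tq_hat]; exact he⟩

lemma Good.io {p : ℕ} [Fact p.Prime] {g : MvPolynomial (Vr n) ℚ_[p]} {d : Fin r → ℕ} {k : Fin r}
    {x : Vr n → ℚ_[p]} {y : ℚ_[p]} (h : Good g d k x) (h4 : d k = 4) (hP : onX g x y)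
    (hy : y ≠ 0) : ∃ e : Fin (n k + 1) → ℚ_[p], IOt (th (Gi g x k) e (fun j => x ⟨k, j⟩) y) :=
  loc_io' (onX_Gi hP k) hy (h.bad h4).1 (tq_gi (h.bad h4).2)

/-- the transfer -/
lemma Good.srv {F : Type} [Field F] [CharZero F] {g : MvPolynomial (Vr n) F} {d : Fin r → ℕ}
    (hg : MH d g) {k : Fin r} {x : Vr n → F} (h : Good g d k x) (hx : MvPolynomial.eval x g ≠ 0)
    {i : Fin r} (hi : i ≠ k) (h4 : d i = 4) :
    ∃ g₁ : (Fin (n k + 1) → F) → F, NZ g₁ ∧ ∀ e₁, g₁ e₁ ≠ 0 →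
      ∃ g₂ : (Fin (n i + 1) → F) → F, NZ g₂ ∧ ∀ e₂, g₂ e₂ ≠ 0 →
        Tr g (hat k e₁) (hat i e₂) x := by
  obtain ⟨h1, e, he⟩ := h.ind i hi h4
  exact MX.srv hg hx (Ne.symm hi) h.sep h1 ⟨fun j => x ⟨k, j⟩, e, by rw [rpl_self]; exact he⟩

end alg

section places

variable {r : ℕ} {n : Fin r → ℕ} {K : Type} [Field K] [CharZero K] {ι : Type} [Finite ι]
  {p : ι → ℕ} [hp : ∀ i, Fact (p i).Prime]

/-- **p-adic places** -/
theorem gen_p [Nonempty ι] (hinj : Function.Injective p) (σ : ∀ i, K →+* ℚ_[p i])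
    {f : MvPolynomial (Vr n) K} {d : Fin r → ℕ} (hf : MH d f) (hd : ∀ i, d i = 2 ∨ d i = 4)
    {k : Fin r} {x₀ : ∀ v, Vr n → ℚ_[p v]} {y₀ : ∀ v, ℚ_[p v]}
    (hP : ∀ v, onX (MvPolynomial.map (σ v) f) (x₀ v) (y₀ v)) (hw : ∀ v, y₀ v ≠ 0)
    (h : ∀ v, Good (MvPolynomial.map (σ v) f) d k (x₀ v)) : IntL σ f x₀ y₀ := by
  classical
  have hne : ∀ v, MvPolynomial.eval (x₀ v) (MvPolynomial.map (σ v) f) ≠ 0 := fun v => by
    rw [← (show y₀ v ^ 2 = _ from hP v)]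
    exact pow_ne_zero 2 (hw v)
  have hconic : ∀ k, d k = 2 → ∀ e : Fin (n k + 1) → K, MvL σ f (hat k e) x₀ y₀ := by
    intro k hk e
    refine mv_conicL (dn_p hinj σ) (fun z => ?_) hw
    have := deg_hat hf z k e
    rwa [hk] at this
  have hk : ∀ e : Fin (n k + 1) → K, MvL σ f (hat k e) x₀ y₀ := by
    rcases hd k with h2 | h4
    · exact hconic k h2
    · exact free_p hinj σ hf h4 hP hw fun v => (h v).io h4 (hP v) (hw v)
  refine int_of_mvL hP hw fun ⟨i, j⟩ => ?_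
  rw [hat_single]
  rcases hd i with h2 | h4
  · exact hconic i h2 _
  · by_cases hi : i = k
    · subst hi
      exact hk _
    · exact step (dn_p hinj σ) (hw_p hinj σ) hf hP hw h4.le hk
        (fun v => (h v).srv (hf.map (σ v)) (hne v) hi h4) _

/-- **the real place and p-adic places** -/
theorem gen_r [Nonempty ι] (hinj : Function.Injective p) (σ : ∀ i, K →+* ℚ_[p i]) (τ : K →+* ℝ)
    {f : MvPolynomial (Vr n) K} {d : Fin r → ℕ} (hf : MH d f) (hd : ∀ i, d i = 2 ∨ d i = 4)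
    {k : Fin r} {x₀ : ∀ v, Vr n → Lv p v} {y₀ : ∀ v, Lv p v}
    (hP : ∀ v, onX (MvPolynomial.map (sv σ τ v) f) (x₀ v) (y₀ v)) (hw : ∀ v, y₀ v ≠ 0)
    (h0 : Good (F := ℝ) (MvPolynomial.map τ f) d k (x₀ none))
    (h : ∀ v, Good (F := ℚ_[p v]) (MvPolynomial.map (σ v) f) d k (x₀ (some v))) :
    IntL (sv σ τ) f x₀ y₀ := by
  classical
  have hne : ∀ v, MvPolynomial.eval (x₀ v) (MvPolynomial.map (sv σ τ v) f) ≠ 0 := fun v => by
    rw [← (show y₀ v ^ 2 = _ from hP v)]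
    exact pow_ne_zero 2 (hw v)
  have hconic : ∀ k, d k = 2 → ∀ e : Fin (n k + 1) → K, MvL (sv σ τ) f (hat k e) x₀ y₀ := by
    intro k hk e
    refine mv_conicL (dn_all hinj σ τ) (fun z => ?_) hw
    have := deg_hat hf z k e
    rwa [hk] at this
  have hk : ∀ e : Fin (n k + 1) → K, MvL (sv σ τ) f (hat k e) x₀ y₀ := by
    rcases hd k with h2 | h4
    · exact hconic k h2
    · exact free_r hinj σ τ hf h4 hP hw (tq_gi (F := ℝ) (h0.bad h4).2) fun v =>
        (h v).io h4 (hP (some v)) (hw (some v))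
  refine int_of_mvL hP hw fun ⟨i, j⟩ => ?_
  rw [hat_single]
  rcases hd i with h2 | h4
  · exact hconic i h2 _
  · by_cases hi : i = k
    · subst hi
      exact hk _
    · refine step (dn_all hinj σ τ) (hw_all hinj σ τ) hf hP hw h4.le hk ?_ _
      rintro (_ | v)
      · exact h0.srv (F := ℝ) (hf.map τ) (hne none) hi h4
      · exact (h v).srv (F := ℚ_[p v]) (hf.map (σ v)) (hne (some v)) hi h4

end places

end Pool.Agent.K6.H96.MX
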