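import Pool.Agent.Y718.CL.Prod
import Pool.Agent.Q35.KC.Gen
import Pool.Agent.Y720.WL.Np

/-!
# Blocks of variables: one factor serves another one
-/

set_option autoImplicit false
set_option linter.unusedVariables false
set_option linter.unusedSectionVars false

open Filter Topology Pool.Agent.Y720.MZ Pool.Agent.Y718.CL Pool.Agent.Y718.SF

namespace Pool.Agent.K6.H96.MX

section pk

variable {F : Type*} [Field F] [CharZero F] {β : Type*} [Fintype β]

/-- a nonzero polynomial function -/
def NZ (g : (β → F) → F) : Prop := PK g ∧ ∃ e, g e ≠ 0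

lemma NZ.mul {g h : (β → F) → F} (hg : NZ g) (hh : NZ h) : NZ fun e => g e * h e := by
  refine ⟨hg.1.mul hh.1, ?_⟩
  obtain ⟨⟨P, hP⟩, e, he⟩ := hg
  obtain ⟨⟨Q, hQ⟩, e', he'⟩ := hh
  have hP0 : P ≠ 0 := by
    rintro rfl
    exact he (by rw [hP, map_zero])
  have hQ0 : Q ≠ 0 := by
    rintro rfl
    exact he' (by rw [hQ, map_zero])
  by_contra hcon
  push Not at hcon
  have : Infinite F := CharZero.infinite F
  refine mul_ne_zero hP0 hQ0 (MvPolynomial.funext fun x => ?_)
  rw [map_mul, ← hP, ← hQ, map_zero]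
  exact hcon x

end pk

section top

variable {F : Type*} [NontriviallyNormedField F] [CharZero F] {β : Type*} [Fintype β]

lemma NZ.ball {g : (β → F) → F} (hg : NZ g) : ∃ e₀ : β → F, ∃ r : ℝ, 0 < r ∧
    ∀ e : β → F, (∀ a, ‖e a - e₀ a‖ < r) → g e ≠ 0 := by
  obtain ⟨⟨P, hP⟩, e₀, he⟩ := hg
  refine ⟨e₀, ball_of ?_⟩
  have hc : Continuous g := by
    have : g = fun e => MvPolynomial.eval e P := funext hP
    rw [this]
    exact MvPolynomial.continuous_eval P
  exact (hc.tendsto e₀).eventually_ne he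

end top

section blk

variable {r : ℕ} {n : Fin r → ℕ} {F : Type*} [Field F] [CharZero F]

/-- replace one block of coordinates -/
def rpl (x : Vr n → F) (k : Fin r) (u : Fin (n k + 1) → F) : Vr n → F :=
  fun a => Function.update (fun (k : Fin r) (j : Fin (n k + 1)) => x ⟨k, j⟩) k u a.1 a.2

lemma rpl_add (x : Vr n → F) (k : Fin r) (e : Fin (n k + 1) → F) (u : F) :
    (fun a => x a + u * hat k e a) = rpl x k fun j => x ⟨k, j⟩ + u * e j := by
  funext ⟨i, j⟩
  by_cases h : i = k
  · subst h
    simp [hat_same, rpl]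
  · simp [hat_ne h, rpl, Function.update_of_ne h]

lemma eval_rpl (f : MvPolynomial (Vr n) F) (x : Vr n → F) (k : Fin r)
    (u : Fin (n k + 1) → F) : MvPolynomial.eval (rpl x k u) f = MvPolynomial.eval u (Gi f x k) :=
  (Gi_eval f x k u).symm

lemma PK_rpl (x : Vr n → F) (k : Fin r) (a : Vr n) : PK fun u : Fin (n k + 1) → F => rpl x k u a := by
  obtain ⟨i, j⟩ := a
  by_cases h : i = k
  · subst h
    simpa [rpl] using PK.coord (K := F) (ι := Fin (n i + 1)) j
  · simpa [rpl, Function.update_of_ne h] using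
      PK.const (K := F) (ι := Fin (n k + 1)) (x ⟨i, j⟩)

lemma PK_hat (k : Fin r) (a : Vr n) : PK fun u : Fin (n k + 1) → F => hat k u a := by
  obtain ⟨i, j⟩ := a
  by_cases h : i = k
  · subst h
    simpa [hat_same] using PK.coord (K := F) (ι := Fin (n i + 1)) j
  · simpa [hat_ne h] using PK.const (K := F) (ι := Fin (n k + 1)) (0 : F)

lemma PK_eval {β : Type*} [Fintype β] (P : MvPolynomial β F) :
    PK fun x : β → F => MvPolynomial.eval x P := ⟨P, fun _ => rfl⟩

/-- the discriminant as a function of the base point -/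
lemma PK_Tq_z {β : Type*} [Fintype β] (f : MvPolynomial β F) (e : β → F) :
    PK fun x : β → F => Tq f e x := ⟨TqP f e, fun x => (TqP_eval f e x).symm⟩

/-- the discriminant as a function of the direction -/
lemma PK_Tq_e {β : Type*} [Fintype β] (f : MvPolynomial β F) (x : β → F) :
    PK fun e : β → F => Tq f e x := by
  have h : ∀ j : Fin 4, PK fun e : β → F => cq f x e j := fun j => PKu_coeff f x ((j : ℕ) + 1)
  have h0 := h 0
  have h1 := h 1
  have h2 := h 2
  have h3 := h 3
  have hc : ∀ c : F, PK fun _ : β → F => c := fun c => PK.const c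
  unfold Tq dsc
  have b : PK fun e : β → F => cq f x e 0 * cq f x e 2 -
      4 * MvPolynomial.eval x f * cq f x e 3 :=
    (h0.mul h2).sub ((hc _).mul h3)
  have c : PK fun e : β → F => cq f x e 0 ^ 2 * cq f x e 3 + MvPolynomial.eval x f *
      cq f x e 2 ^ 2 - 4 * MvPolynomial.eval x f * cq f x e 1 * cq f x e 3 :=
    (((h0.pow 2).mul h3).add ((hc _).mul (h2.pow 2))).sub (((hc _).mul h1).mul h3)
  exact (((((h1.pow 2).mul (b.pow 2)).sub ((hc _).mul (b.pow 3))).sub
    (((hc _).mul (h1.pow 3)).mul c)).sub ((hc _).mul (c.pow 2))).add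
    ((((hc _).mul h1).mul b).mul c)

end blk

end Pool.Agent.K6.H96.MX
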