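import Pool.Agent.K6.H96.MX.Loc

/-!
# One factor serves another one: the transfer
-/

set_option autoImplicit false
set_option linter.unusedVariables false
set_option linter.unusedSectionVars false

open Filter Topology Pool.Agent.Y720.MZ Pool.Agent.Y718.CL Pool.Agent.Y718.SF

namespace Pool.Agent.K6.H96.MX

section alg

variable {r : ℕ} {n : Fin r → ℕ} {F : Type*} [Field F] [CharZero F]

lemma MH_pderiv {d : Fin r → ℕ} {f : MvPolynomial (Vr n) F} (h : MH d f) (i : Fin r)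
    (j : Fin (n i + 1)) : MH (Function.update d i (d i - 1)) (MvPolynomial.pderiv ⟨i, j⟩ f) := by
  classical
  intro m hm i'
  rw [MvPolynomial.mem_support_iff, MvPolynomial.coeff_pderiv] at hm
  have h1 := h _ (MvPolynomial.mem_support_iff.2 (left_ne_zero_of_mul hm)) i'
  by_cases hi : i' = i
  · subst hi
    rw [Function.update_self]
    have h2 : ∑ j', (m + Finsupp.single (⟨i', j⟩ : Vr n) 1 : Vr n →₀ ℕ) ⟨i', j'⟩ =
        ∑ j', m ⟨i', j'⟩ + 1 := by
      simp only [Finsupp.add_apply, Finset.sum_add_distrib]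
      congr 1
      rw [Finset.sum_eq_single j]
      · rw [Finsupp.single_eq_same]
      · intro l _ hl
        rw [Finsupp.single_apply, if_neg]
        intro h0
        apply hl
        simpa using h0.symm
      · simp
    omega
  · rw [Function.update_of_ne hi]
    rw [← h1]
    refine Finset.sum_congr rfl fun l _ => ?_
    rw [Finsupp.add_apply, Finsupp.single_apply, if_neg, add_zero]
    intro h0
    exact hi (congrArg Sigma.fst h0).symm

/-- not all derivatives with respect to the variables of the `i`-th factor are multiples of `f`, as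
forms in the variables of the `k`-th factor -/
def Ind (f : MvPolynomial (Vr n) F) (x : Vr n → F) (k i : Fin r) : Prop :=
  ∃ j, ∀ c : F, Gi (MvPolynomial.pderiv ⟨i, j⟩ f) x k ≠ MvPolynomial.C c * Gi f x k

/-- all roots are simple -/
def Spr (q : Polynomial F) : Prop :=
  ∀ s : AlgebraicClosure F, Polynomial.aeval s q = 0 →
    Polynomial.aeval s (Polynomial.derivative q) ≠ 0

/-- the directions of the lines which are separable -/
def NZs (f : MvPolynomial (Vr n) F) (x : Vr n → F) (k : Fin r) : Prop :=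
  ∃ g : (Fin (n k + 1) → F) → F, NZ g ∧ ∀ e, g e ≠ 0 → Spr (rst f x (hat k e))

/-- **The transfer for most directions.** -/
theorem srv {f : MvPolynomial (Vr n) F} {d : Fin r → ℕ} (hf : MH d f) {x : Vr n → F}
    (hx : MvPolynomial.eval x f ≠ 0) {k i : Fin r} (hki : k ≠ i) (hs : NZs f x k)
    (hI : Ind f x k i) (hT : ∃ u : Fin (n k + 1) → F, ∃ e : Fin (n i + 1) → F,
      Tq f (hat i e) (rpl x k u) ≠ 0) :
    ∃ g₁ : (Fin (n k + 1) → F) → F, NZ g₁ ∧ ∀ e₁, g₁ e₁ ≠ 0 →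
      ∃ g₂ : (Fin (n i + 1) → F) → F, NZ g₂ ∧ ∀ e₂, g₂ e₂ ≠ 0 →
        Tr f (hat k e₁) (hat i e₂) x := by
  classical
  obtain ⟨gs, hgs, hgs2⟩ := hs
  obtain ⟨j, hj⟩ := hI
  obtain ⟨u, e₂', hu⟩ := hT
  set z : Fin (n k + 1) → F := fun j => x ⟨k, j⟩ with hz
  have hz0 : MvPolynomial.eval z (Gi f x k) ≠ 0 := by rw [Gi_self]; exact hx
  have h0 : (Gi f x k).IsHomogeneous (d k) := Gi_hom hf x k
  have h1 : (Gi (MvPolynomial.pderiv ⟨i, j⟩ f) x k).IsHomogeneous (d k) := by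
    have := Gi_hom (MH_pderiv hf i j) x k
    rwa [Function.update_of_ne hki] at this
  have nd := NZ_nd hz0 hj
  have nt : NZ fun e₁ : Fin (n k + 1) → F => Tq f (hat i e₂') (rpl x k (z + e₁)) := by
    refine ⟨?_, u - z, ?_⟩
    · have k1 : PK fun u : Fin (n k + 1) → F => Tq f (hat i e₂') (rpl x k u) :=
        (PK_Tq_z f (hat i e₂')).comp (φ := fun (a : Vr n) (u : Fin (n k + 1) → F) =>
          rpl x k u a) fun a => PK_rpl x k a
      exact k1.comp (φ := fun (l : Fin (n k + 1)) (e : Fin (n k + 1) → F) => (z + e) l) fun l =>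
        (PK.const (z l)).add (PK.coord l)
    · change Tq f (hat i e₂') (rpl x k (z + (u - z))) ≠ 0
      rw [add_sub_cancel]
      exact hu
  refine ⟨_, (hgs.mul nd).mul nt, fun e₁ he₁ => ?_⟩
  obtain ⟨he12, he3⟩ := mul_ne_zero_iff.1 he₁
  obtain ⟨he1, he2⟩ := mul_ne_zero_iff.1 he12
  obtain ⟨he2a, he2b⟩ := mul_ne_zero_iff.1 he2
  have hsp := hgs2 e₁ he1
  have hnd : ¬ rst f x (hat k e₁) ∣ rst (MvPolynomial.pderiv ⟨i, j⟩ f) x (hat k e₁) := by
    rw [rst_hat, rst_hat]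
    exact not_dvd h0 h1 he2a he2b
  obtain ⟨s₀, hs0, hs1⟩ : ∃ s₀ : AlgebraicClosure F,
      Polynomial.aeval s₀ (rst f x (hat k e₁)) = 0 ∧
      Polynomial.aeval s₀ (rst (MvPolynomial.pderiv ⟨i, j⟩ f) x (hat k e₁)) ≠ 0 := by
    by_contra hcon
    push Not at hcon
    refine hnd (Pool.Agent.Q35.KC.dvd_of_roots ?_ hsp hcon)
    intro hq
    exact hsp 0 (by rw [hq, map_zero]) (by rw [hq, Polynomial.derivative_zero, map_zero])
  have hs2 := hsp s₀ hs0
  rw [rst_deriv, aeval_rst] at hs2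
  rw [aeval_rst] at hs0 hs1
  set pt : Vr n → AlgebraicClosure F := fun a => algebraMap F (AlgebraicClosure F) (x a) +
    s₀ * algebraMap F (AlgebraicClosure F) (hat k e₁ a) with hpt
  set θ : Fin (n i + 1) → AlgebraicClosure F := fun l =>
    MvPolynomial.aeval pt (MvPolynomial.pderiv ⟨i, l⟩ f) with hθ
  obtain ⟨lam, hlam⟩ : ∃ lam : Module.Dual F (AlgebraicClosure F), lam (θ j) ≠ 0 := by
    by_contra hcon
    push Not at hcon
    exact hs1 ((Module.forall_dual_apply_eq_zero_iff F (θ j)).1 hcon)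
  have n1 : NZ fun e₂ : Fin (n i + 1) → F => ∑ l, e₂ l * lam (θ l) := by
    refine ⟨PK.sum _ fun l _ => (PK.coord l).mul (PK.const _), Pi.single j 1, ?_⟩
    change ∑ l, (Pi.single j 1 : Fin (n i + 1) → F) l * lam (θ l) ≠ 0
    rw [Finset.sum_eq_single j]
    · rw [Pi.single_eq_same, one_mul]; exact hlam
    · intro l _ hl
      rw [Pi.single_eq_of_ne hl, zero_mul]
    · simp
  have n2 : NZ fun e₂ : Fin (n i + 1) → F => Tq f (hat i e₂) (rpl x k (z + e₁)) := by
    refine ⟨?_, e₂', he3⟩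
    exact (PK_Tq_e f (rpl x k (z + e₁))).comp (φ := fun (a : Vr n) (u : Fin (n i + 1) → F) =>
      hat i u a) fun a => PK_hat i a
  refine ⟨_, n1.mul n2, fun e₂ he₂ => ?_⟩
  obtain ⟨k1, k2⟩ := mul_ne_zero_iff.1 he₂
  refine ⟨⟨s₀, hs0, hs2, ?_⟩, 1, ?_⟩
  · intro hcon
    apply k1
    have e1 : MvPolynomial.aeval pt (Pool.Agent.Y720.MZ.dd f (hat i e₂)) =
        ∑ l, algebraMap F (AlgebraicClosure F) (e₂ l) * θ l := by
      rw [Pool.Agent.Y720.MZ.dd, map_sum]
      rw [Fintype.sum_sigma]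
      rw [Finset.sum_eq_single i]
      · refine Finset.sum_congr rfl fun l _ => ?_
        rw [map_mul, MvPolynomial.aeval_C, hat_same]
      · intro i' _ hi'
        refine Finset.sum_eq_zero fun l _ => ?_
        rw [hat_ne hi', MvPolynomial.C_0, zero_mul, map_zero]
      · simp
    change MvPolynomial.aeval pt (Pool.Agent.Y720.MZ.dd f (hat i e₂)) = 0 at hcon
    rw [e1] at hcon
    have e2 := congrArg lam hcon
    rw [map_sum, map_zero] at e2
    rw [← e2]
    refine Finset.sum_congr rfl fun l _ => ?_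
    rw [← Algebra.smul_def, map_smul, smul_eq_mul]
  · have e3 : (fun a => x a + 1 * hat k e₁ a) = rpl x k (z + e₁) := by
      rw [rpl_add]
      congr 1
      funext l
      rw [one_mul]
      rfl
    rw [e3]
    exact k2

lemma NZs_four {f : MvPolynomial (Vr n) F} {d : Fin r → ℕ} (hf : MH d f) {x : Vr n → F}
    {k : Fin r} (hk : d k = 4) (h : ∃ e : Fin (n k + 1) → F, Tq f (hat k e) x ≠ 0) : NZs f x k := by
  refine ⟨fun e => Tq f (hat k e) x, ⟨?_, h⟩, fun e he s hs => ?_⟩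
  · exact (PK_Tq_e f x).comp (φ := fun (a : Vr n) (u : Fin (n k + 1) → F) =>
      hat k u a) fun a => PK_hat k a
  · refine Tq_root ?_ he hs
    have := deg_hat hf x k e
    rwa [hk] at this

lemma NZs_two {f : MvPolynomial (Vr n) F} {d : Fin r → ℕ} (hf : MH d f) {x : Vr n → F}
    (hx : MvPolynomial.eval x f ≠ 0)
    {k : Fin r} (hk : d k = 2) (hn : 1 ≤ n k) (h : Sm (Gi f x k)) : NZs f x k := by
  have h0 : (Gi f x k).IsHomogeneous 2 := by
    have := Gi_hom hf x k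
    rwa [hk] at this
  refine ⟨_, NZ_quad hn h0 h (z := fun j => x ⟨k, j⟩) (by rw [Gi_self]; exact hx),
    fun e he s hs => ?_⟩
  have h1 : rst f x (hat k e) = lg (Gi f x k) (fun j => x ⟨k, j⟩) e := rst_hat f x k e
  rw [h1] at hs ⊢
  exact sep2 (lg_deg' h0 _ _) he hs

end alg

section places

variable {r : ℕ} {n : Fin r → ℕ} {K : Type*} [Field K] [CharZero K] {V : Type*} [Finite V]
  {L : V → Type*} [∀ v, NontriviallyNormedField (L v)] [∀ v, CompleteSpace (L v)]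
  [∀ v, CharZero (L v)] {s : ∀ v, K →+* L v}

/-- **The transfer from one factor to another one.** -/
theorem step (hden : Dn s) (HWs : HW s) {f : MvPolynomial (Vr n) K} {d : Fin r → ℕ}
    (hf : MH d f) {x₀ : ∀ v, Vr n → L v} {y₀ : ∀ v, L v}
    (hP : ∀ v, onX (MvPolynomial.map (s v) f) (x₀ v) (y₀ v)) (hw : ∀ v, y₀ v ≠ 0) {k i : Fin r}
    (hi : d i ≤ 4) (hk : ∀ e : Fin (n k + 1) → K, MvL s f (hat k e) x₀ y₀)
    (hS : ∀ v, ∃ g₁ : (Fin (n k + 1) → L v) → L v, NZ g₁ ∧ ∀ e₁, g₁ e₁ ≠ 0 →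
      ∃ g₂ : (Fin (n i + 1) → L v) → L v, NZ g₂ ∧ ∀ e₂, g₂ e₂ ≠ 0 →
        Tr (MvPolynomial.map (s v) f) (hat k e₁) (hat i e₂) (x₀ v)) :
    ∀ e : Fin (n i + 1) → K, MvL s f (hat i e) x₀ y₀ := by
  classical
  choose g₁ hg₁ hg₂ using hS
  choose c₁ ρ₁ hρ₁ hb₁ using fun v => (hg₁ v).ball
  obtain ⟨η, hη, hηm⟩ := fin_min hρ₁
  obtain ⟨e₁, he₁⟩ : ∃ e₁ : Fin (n k + 1) → K, ∀ v a, ‖s v (e₁ a) - c₁ v a‖ < η := by
    have h1 := fun a => hden (fun v => c₁ v a) η hη
    choose g hg using h1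
    exact ⟨g, fun v a => hg a v⟩
  have h1 : ∀ v, g₁ v (fun a => s v (e₁ a)) ≠ 0 := fun v =>
    hb₁ v _ fun a => (he₁ v a).trans_le (hηm v)
  choose g₂ hg₂a hg₂b using fun v => hg₂ v _ (h1 v)
  choose c₂ ρ₂ hρ₂ hb₂ using fun v => (hg₂a v).ball
  obtain ⟨η', hη', hηm'⟩ := fin_min hρ₂
  intro e
  have h5 : e ∈ (mvSub hP hw).comap (hatL K i) := by
    refine near_top hden _ c₂ hη' (fun e₂ he₂ => ?_) e
    refine mv_transferL HWs hP hw (hk e₁) (fun z => (deg_hat hf z i e₂).trans hi) fun v => ?_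
    change Tr (MvPolynomial.map (s v) f) (fun a => s v (hat k e₁ a)) (fun a => s v (hat i e₂ a))
      (x₀ v)
    rw [hat_map, hat_map]
    exact hg₂b v _ (hb₂ v _ fun a => (he₂ v a).trans_le (hηm' v))
  exact h5

end places

section free

variable {r : ℕ} {n : Fin r → ℕ} {K : Type*} [Field K] [CharZero K] {ι : Type*} [Finite ι]
  {p : ι → ℕ} [hp : ∀ i, Fact (p i).Prime]

/-- **A factor of degree four with a direction of infinite order: p-adic places** -/
theorem free_p [Nonempty ι] (hinj : Function.Injective p) (σ : ∀ i, K →+* ℚ_[p i])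
    {f : MvPolynomial (Vr n) K} {d : Fin r → ℕ} (hf : MH d f) {i : Fin r} (h4 : d i = 4)
    {x₀ : ∀ v, Vr n → ℚ_[p v]} {y₀ : ∀ v, ℚ_[p v]}
    (hP : ∀ v, onX (MvPolynomial.map (σ v) f) (x₀ v) (y₀ v)) (hw : ∀ v, y₀ v ≠ 0)
    (h : ∀ v, ∃ e : Fin (n i + 1) → ℚ_[p v],
      IOt (th (Gi (MvPolynomial.map (σ v) f) (x₀ v) i) e (fun j => x₀ v ⟨i, j⟩) (y₀ v)))
    (e : Fin (n i + 1) → K) : MvL σ f (hat i e) x₀ y₀ := by
  classical
  choose e₀ he₀ using h
  choose ρ hρ hρb using fun v => dir_open (hw v) (he₀ v)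
  obtain ⟨ρ₀, hρ₀, hρ₀m⟩ := fin_min hρ
  have h5 : e ∈ (mvSub hP hw).comap (hatL K i) := by
    refine near_top (dn_p hinj σ) _ e₀ hρ₀ (fun e he => ?_) _
    refine mv_ioL (hw_p hinj σ) (fun z => ?_) hw fun v => ?_
    · have := deg_hat hf z i e
      rwa [h4] at this
    · have h6 := hρb v (fun a => σ v (e a)) fun a => (he v a).trans_le (hρ₀m v)
      rw [← th_hat, ← hat_map] at h6
      exact h6
  exact h5

/-- **the real place and p-adic places** -/
theorem free_r [Nonempty ι] (hinj : Function.Injective p) (σ : ∀ i, K →+* ℚ_[p i]) (τ : K →+* ℝ)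
    {f : MvPolynomial (Vr n) K} {d : Fin r → ℕ} (hf : MH d f) {i : Fin r} (h4 : d i = 4)
    {x₀ : ∀ v, Vr n → Lv p v} {y₀ : ∀ v, Lv p v}
    (hP : ∀ v, onX (MvPolynomial.map (Pool.Agent.Y720.MZ.sv σ τ v) f) (x₀ v) (y₀ v))
    (hw : ∀ v, y₀ v ≠ 0)
    (hD : ∃ e : Fin (n i + 1) → ℝ,
      Tq (Gi (MvPolynomial.map τ f) (x₀ none) i) e (fun j => x₀ none ⟨i, j⟩) ≠ 0)
    (h : ∀ v, ∃ e : Fin (n i + 1) → ℚ_[p v],
      IOt (th (Gi (MvPolynomial.map (σ v) f) (x₀ (some v)) i) e (fun j => x₀ (some v) ⟨i, j⟩)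
        (y₀ (some v)))) (e : Fin (n i + 1) → K) :
    MvL (Pool.Agent.Y720.MZ.sv σ τ) f (hat i e) x₀ y₀ := by
  classical
  choose e₁ he₁ using h
  obtain ⟨e₂, he₂⟩ := hD
  choose ρ hρ hρb using fun v => dir_open
    (f := Gi (MvPolynomial.map (σ v) f) (x₀ (some v)) i) (hw (some v)) (he₁ v)
  obtain ⟨r₁, hr₁, hr₁m⟩ := fin_min hρ
  obtain ⟨r₂, hr₂, hr₂b⟩ := ball_of ((Tq_cont_e (Gi (MvPolynomial.map τ f) (x₀ none) i)
    (fun j => x₀ none ⟨i, j⟩)).tendsto e₂ |>.eventually_ne he₂)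
  let e₀ : ∀ v, Fin (n i + 1) → Lv p v := fun v => match v with
    | none => e₂
    | some v => e₁ v
  have h5 : e ∈ (mvSub hP hw).comap (hatL K i) := by
    refine near_top (dn_all hinj σ τ) _ e₀ (lt_min hr₁ hr₂) (fun e he => ?_) _
    refine mv_ior hinj (fun z => ?_) hP hw ?_ fun v => ?_
    · have := deg_hat hf z i e
      rwa [h4] at this
    · have h6 := hr₂b (fun a => τ (e a)) fun a => (he none a).trans_le (min_le_right _ _)
      have h7 : Tq (K := ℝ) (MvPolynomial.map τ f) (fun a => τ (hat i e a)) (x₀ none) ≠ 0 := by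
        rw [hat_map, Tq_hat (F := ℝ) (MvPolynomial.map τ f) (x₀ none) i (fun j => τ (e j))]
        exact h6
      exact h7
    · have h6 := hρb v (fun a => σ v (e a)) fun a =>
        (he (some v) a).trans_le ((min_le_left _ _).trans (hr₁m v))
      have h7 : IOt (F := ℚ_[p v]) (th (MvPolynomial.map (σ v) f) (fun a => σ v (hat i e a))
          (x₀ (some v)) (y₀ (some v))) := by
        rw [hat_map, th_hat (F := ℚ_[p v]) (MvPolynomial.map (σ v) f) (x₀ (some v))
          (y₀ (some v)) i (fun j => σ v (e j))]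
        exact h6
      exact h7
  exact h5

end free

end Pool.Agent.K6.H96.MX
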